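import Pool.Agent.MPdf6699Lib.Core
set_option autoImplicit false

open Filter

namespace Pool.Agent.Results.MP_df6699_an.WidthConjectureFalse

/-- The region of the width conjecture. -/
def Region (ρ K : ℝ) : Set ℂ := {z | 0 < z.re ∧ |z.im| < K * z.re ^ (1 - ρ / 2)}

/-- Partial sums of the power series with coefficients `a`. -/
noncomputable def partialSum (a : ℕ → ℂ) (n : ℕ) (z : ℂ) : ℂ :=
  ∑ k ∈ Finset.range (n + 1), a k * z ^ k

/-- The power series converges at every point of the plane. -/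
def IsEntire (a : ℕ → ℂ) : Prop := ∀ z : ℂ, Summable fun k => a k * z ^ k

/-- The sum of the power series. -/
noncomputable def sumFun (a : ℕ → ℂ) (z : ℂ) : ℂ := ∑' k, a k * z ^ k

/-- Maximum modulus on the circle of radius `r`. -/
noncomputable def maxModulus (f : ℂ → ℂ) (r : ℝ) : ℝ :=
  sSup ((fun z => ‖f z‖) '' Metric.sphere (0 : ℂ) r)

/-- The order of an entire function. -/
noncomputable def order (f : ℂ → ℂ) : EReal :=
  limsup (fun r : ℝ => ((Real.log (Real.log (maxModulus f r)) / Real.log r : ℝ) : EReal)) atTop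

/-- The assertion of the width conjecture. -/
def WidthConjecture : Prop :=
  ∀ ρ K : ℝ, 0 < ρ → 0 < K → ∀ a : ℕ → ℂ,
    (∀ n : ℕ, 1 ≤ n → ∀ z ∈ Region ρ K, partialSum a n z ≠ 0) →
      IsEntire a ∧ order (sumFun a) ≤ ((ρ : ℝ) : EReal)

theorem explicit (K : ℝ) (hK : 0 < K) : ∃ a : ℕ → ℂ,
    (∀ n : ℕ, ∀ z ∈ Region 2 K, partialSum a n z ≠ 0) ∧ IsEntire a ∧
      ((401 / 200 : ℝ) : EReal) ≤ order (sumFun a) := by
  obtain ⟨b, hb1, hb2, n, x, hx, hx0, h1, h2⟩ := Pool.Agent.MPdf6699Lib.core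
  set c : ℝ := 1 / (10 * K) with hc
  have hc0 : 0 < c := by positivity
  have hcc : (c : ℂ) ≠ 0 := by norm_cast; linarith
  have hent : ∀ z : ℂ, Summable fun k => b k * (c : ℂ) ^ k * z ^ k := by
    intro z
    refine (hb2 (c * z)).congr (fun k => ?_)
    rw [mul_pow, mul_assoc]
  refine ⟨fun k => b k * (c : ℂ) ^ k, ?_, hent, ?_⟩
  · intro N z hz
    have hzr : 0 < z.re := hz.1
    have hzi : |z.im| < K := by
      have h3 := hz.2
      have e : (1 - 2 / 2 : ℝ) = 0 := by norm_num
      rw [e, Real.rpow_zero, mul_one] at h3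
      exact h3
    have hmem : (c : ℂ) * z ∈ Pool.Agent.MPdf6699Lib.Strip := by
      constructor
      · rw [Complex.re_ofReal_mul]
        exact mul_pos hc0 hzr
      · rw [Complex.im_ofReal_mul, abs_mul, abs_of_pos hc0, hc]
        rw [div_mul_eq_mul_div, one_mul, div_lt_iff₀ (by positivity)]
        linarith
    have h3 := hb1 N (c * z) hmem
    unfold partialSum
    intro h4
    apply h3
    rw [← h4]
    apply Finset.sum_congr rfl
    intro k _
    rw [mul_pow, mul_assoc]
  · have h3 := Pool.Agent.MPdf6699Lib.order_lower (a := fun k => b k * (c : ℂ) ^ k) hent (n := n)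
      (X := fun k => x k / c) (c0 := 1 / 50 * c ^ (201 / 100 : ℝ)) (by positivity)
      (hx.atTop_div_const hc0)
      (by
        intro k
        have hxk := hx0 k
        rw [norm_mul, norm_pow, Complex.norm_real, Real.norm_eq_abs, abs_of_pos hc0]
        calc 1 / 4 * (1 / (x k / c) ^ n k) = 1 / 4 * (1 / x k ^ n k) * c ^ n k := by
              rw [div_pow]; field_simp
          _ ≤ ‖b (n k)‖ * c ^ n k := mul_le_mul_of_nonneg_right (h1 k) (by positivity))
      (by
        filter_upwards [h2] with k hk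
        have hxk := hx0 k
        rw [Real.div_rpow hxk.le hc0.le]
        have e : 1 / 50 * c ^ (201 / 100 : ℝ) * (x k ^ (201 / 100 : ℝ) / c ^ (201 / 100 : ℝ)) =
            1 / 50 * x k ^ (201 / 100 : ℝ) := by
          have : c ^ (201 / 100 : ℝ) ≠ 0 := (Real.rpow_pos_of_pos hc0 _).ne'
          field_simp
        rw [e]
        exact hk)
    exact h3

theorem result : ¬ WidthConjecture ∧
    ∀ K : ℝ, 0 < K → ∃ a : ℕ → ℂ,
      (∀ n : ℕ, ∀ z ∈ Region 2 K, partialSum a n z ≠ 0) ∧ IsEntire a ∧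
        ((401 / 200 : ℝ) : EReal) ≤ order (sumFun a) := by
  refine ⟨?_, explicit⟩
  intro h
  obtain ⟨a, h1, _, h3⟩ := explicit 1 one_pos
  have h4 := (h 2 1 (by norm_num) one_pos a (fun n _ z hz => h1 n z hz)).2
  have h5 := h3.trans h4
  rw [EReal.coe_le_coe_iff] at h5
  norm_num at h5

end Pool.Agent.Results.MP_df6699_an.WidthConjectureFalse
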